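import Mathlib

/-!
# Anticoncentration of multiaffine functions of independent random variables
-/

set_option autoImplicit false

namespace Pool.Agent.Q203.LPR

open MeasureTheory Finset
open scoped ENNReal

/-- The distribution `ν` on the real line is supported on `[- 2 ^ s, 2 ^ s]`, and every interval of
length `2 ε` has probability at most `2 ^ s ε` (for instance, the density is at most
`2 ^ (s - 1)`). -/
def Spread (s : ℕ) (ν : Measure ℝ) : Prop :=
  ν {x | 2 ^ s < |x|} = 0 ∧
    ∀ a ε : ℝ, 0 ≤ ε → ν (Set.Icc (a - ε) (a + ε)) ≤ ENNReal.ofReal (2 ^ s * ε)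

/-- The same for the intervals of length `2 ε` only. -/
def SpreadAt (s : ℕ) (ε : ℝ) (ν : Measure ℝ) : Prop :=
  ν {x | 2 ^ s < |x|} = 0 ∧ ∀ a : ℝ, ν (Set.Icc (a - ε) (a + ε)) ≤ ENNReal.ofReal (2 ^ s * ε)

variable {Q : Type} [Fintype Q] [DecidableEq Q]

/-- A multiaffine function. -/
noncomputable def ev (c : Finset Q → ℝ) (S : Finset Q) (ξ : Q → ℝ) : ℝ :=
  ∑ T ∈ S.powerset, c T * ∏ q ∈ T, ξ q

omit [Fintype Q] in
theorem ev_insert (c : Finset Q → ℝ) {q : Q} {S : Finset Q} (hq : q ∉ S) (ξ : Q → ℝ) :
    ev c (insert q S) ξ = ev c S ξ + ξ q * ev (fun T => c (insert q T)) S ξ := by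
  unfold ev
  rw [Finset.sum_powerset_insert hq, Finset.mul_sum]
  congr 1
  refine Finset.sum_congr rfl fun T hT => ?_
  have hqT : q ∉ T := fun h => hq (Finset.mem_powerset.1 hT h)
  rw [Finset.prod_insert hqT]
  ring

omit [Fintype Q] in
theorem ev_update (c : Finset Q → ℝ) {q : Q} {S : Finset Q} (hq : q ∉ S) (ξ : Q → ℝ) (x : ℝ) :
    ev c S (Function.update ξ q x) = ev c S ξ := by
  unfold ev
  refine Finset.sum_congr rfl fun T hT => ?_
  congr 1
  refine Finset.prod_congr rfl fun p hp => ?_
  rw [Function.update_of_ne]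
  rintro rfl
  exact hq (Finset.mem_powerset.1 hT hp)

omit [Fintype Q] [DecidableEq Q] in
theorem measurable_ev (c : Finset Q → ℝ) (S : Finset Q) : Measurable (ev c S) := by
  unfold ev
  fun_prop

/-- Fubini. -/
theorem pi_update_le (ν : Q → Measure ℝ) [∀ q, IsProbabilityMeasure (ν q)] (q : Q)
    (E : Set (Q → ℝ)) (hE : MeasurableSet E) (B : ℝ≥0∞)
    (h : ∀ ξ, ν q {x | Function.update ξ q x ∈ E} ≤ B) : Measure.pi ν E ≤ B := by
  have h0 : Measure.pi ν E = ∫⁻ ξ, E.indicator 1 ξ ∂(Measure.pi ν) := by
    rw [lintegral_indicator_one hE]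
  have hf : Measurable (E.indicator (1 : (Q → ℝ) → ℝ≥0∞)) := measurable_one.indicator hE
  rw [h0, lintegral_eq_lmarginal_univ (fun _ => (0 : ℝ)),
    lmarginal_erase' _ hf (Finset.mem_univ q)]
  have h1 : (fun x : Q → ℝ => ∫⁻ xi, E.indicator (1 : (Q → ℝ) → ℝ≥0∞) (Function.update x q xi) ∂ν q)
      ≤ fun _ => B := by
    intro ξ
    have h2 : (fun xi => E.indicator (1 : (Q → ℝ) → ℝ≥0∞) (Function.update ξ q xi)) =
        {x | Function.update ξ q x ∈ E}.indicator 1 := by
      funext x
      by_cases hx : Function.update ξ q x ∈ E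
      · rw [Set.indicator_of_mem hx, Set.indicator_of_mem (by exact hx)]
        rfl
      · rw [Set.indicator_of_notMem hx, Set.indicator_of_notMem (by exact hx)]
    show ∫⁻ xi, E.indicator (1 : (Q → ℝ) → ℝ≥0∞) (Function.update ξ q xi) ∂ν q ≤ B
    rw [h2, lintegral_indicator_one]
    · exact h ξ
    · exact (measurable_update ξ) hE
  refine (lmarginal_mono h1 _).trans ?_
  unfold lmarginal
  rw [lintegral_const, measure_univ, mul_one]

/-- Anticoncentration. -/
theorem ac (ν : Q → Measure ℝ) [∀ q, IsProbabilityMeasure (ν q)] {s : ℕ} {ε : ℝ}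
    (hν : ∀ q, SpreadAt s ε (ν q)) (hε : 0 < ε) (hε1 : ε ≤ 1) (S : Finset Q) :
    ∀ (c : Finset Q → ℝ) (T₀ : Finset Q), T₀ ⊆ S →
      Measure.pi ν {ξ | (∀ q, |ξ q| ≤ 2 ^ s) ∧ |ev c S ξ| < (ε / 2 ^ (s + 1)) ^ S.card * |c T₀|} ≤
        S.card * ENNReal.ofReal (2 ^ s * ε) := by
  induction S using Finset.induction_on with
  | empty =>
    intro c T₀ hT
    rw [Finset.subset_empty] at hT
    subst hT
    have : {ξ : Q → ℝ | (∀ q, |ξ q| ≤ 2 ^ s) ∧ |ev c ∅ ξ| <
        (ε / 2 ^ (s + 1)) ^ (∅ : Finset Q).card * |c ∅|} = ∅ := by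
      ext ξ
      simp [ev]
    rw [this]
    simp
  | insert q S hq ih =>
    intro c T₀ hT
    set η : ℝ := ε / 2 ^ (s + 1) with hη
    have hp : (0 : ℝ) < 2 ^ (s + 1) := by positivity
    have hp1 : (1 : ℝ) ≤ 2 ^ (s + 1) := one_le_pow₀ (by norm_num)
    have hη0 : 0 < η := by positivity
    have hηε : η ≤ ε := div_le_self hε.le hp1
    have hη1 : η ≤ 1 / 2 := by
      rw [hη, div_le_div_iff₀ hp (by norm_num)]
      have : (2 : ℝ) ≤ 2 ^ (s + 1) := by
        rw [pow_succ]
        have : (1 : ℝ) ≤ 2 ^ s := one_le_pow₀ (by norm_num)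
        linarith
      nlinarith
    set δ : ℝ := η ^ S.card * |c T₀| with hδ
    have hδ0 : 0 ≤ δ := by positivity
    set g : (Q → ℝ) → ℝ := ev c S with hg
    set h : (Q → ℝ) → ℝ := ev (fun T => c (insert q T)) S with hh
    -- the second event
    set E : Set (Q → ℝ) := {ξ | 0 < δ ∧ δ / 2 ^ (s + 1) ≤ |h ξ| ∧ |g ξ + ξ q * h ξ| < η * δ} with hE
    have hEm : MeasurableSet E := by
      have hgm : Measurable g := measurable_ev _ _
      have hhm : Measurable h := measurable_ev _ _
      have h1 : MeasurableSet {ξ : Q → ℝ | δ / 2 ^ (s + 1) ≤ |h ξ|} :=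
        measurableSet_le measurable_const (by fun_prop)
      have h2 : MeasurableSet {ξ : Q → ℝ | |g ξ + ξ q * h ξ| < η * δ} :=
        measurableSet_lt (by fun_prop) measurable_const
      exact (MeasurableSet.const _).inter (h1.inter h2)
    have hE2 : Measure.pi ν E ≤ ENNReal.ofReal (2 ^ s * ε) := by
      refine pi_update_le ν q E hEm _ fun ξ => ?_
      by_cases hc : 0 < δ ∧ δ / 2 ^ (s + 1) ≤ |h ξ|
      · refine (measure_mono ?_).trans ((hν q).2 (-g ξ / h ξ))
        intro x hx
        obtain ⟨-, -, hx3⟩ := hx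
        rw [hg, hh, ev_update _ hq, ev_update _ hq, Function.update_self, ← hg, ← hh] at hx3
        have hh0 : h ξ ≠ 0 := by
          intro h0
          rw [h0, abs_zero] at hc
          have : 0 < δ / 2 ^ (s + 1) := div_pos hc.1 hp
          linarith [hc.2]
        have hh1 : 0 < |h ξ| := abs_pos.2 hh0
        have h3 : |x - (-g ξ / h ξ)| * |h ξ| = |g ξ + x * h ξ| := by
          rw [← abs_mul]
          congr 1
          field_simp
          ring
        have h4 : |x - (-g ξ / h ξ)| * |h ξ| ≤ ε * |h ξ| := by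
          rw [h3]
          refine hx3.le.trans ?_
          have : η * δ = ε * (δ / 2 ^ (s + 1)) := by
            rw [hη]
            ring
          rw [this]
          exact mul_le_mul_of_nonneg_left hc.2 hε.le
        have h5 := le_of_mul_le_mul_right h4 hh1
        rw [abs_le] at h5
        exact ⟨by linarith [h5.1], by linarith [h5.2]⟩
      · have : {x | Function.update ξ q x ∈ E} = ∅ := by
          ext x
          simp only [Set.mem_ofPred_eq, Set.mem_empty_iff_false, iff_false]
          rintro ⟨h1, h2, -⟩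
          rw [hh, ev_update _ hq, ← hh] at h2
          exact hc ⟨h1, h2⟩
        rw [this]
        simp
    have hkey : ∃ F : Set (Q → ℝ), Measure.pi ν F ≤ S.card * ENNReal.ofReal (2 ^ s * ε) ∧
        {ξ | (∀ q, |ξ q| ≤ 2 ^ s) ∧ |ev c (insert q S) ξ| <
          η ^ (insert q S).card * |c T₀|} ⊆ F ∪ E := by
      by_cases hqT : q ∈ T₀
      · refine ⟨{ξ | (∀ q, |ξ q| ≤ 2 ^ s) ∧ |h ξ| < δ}, ?_, ?_⟩
        · have := ih (fun T => c (insert q T)) (T₀.erase q)
            (Finset.subset_insert_iff.1 hT)
          rw [Finset.insert_erase hqT] at this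
          exact this
        · rintro ξ ⟨h1, h2⟩
          rw [Finset.card_insert_of_notMem hq, pow_succ', mul_assoc, ← hδ, ev_insert c hq] at h2
          by_cases h3 : |h ξ| < δ
          · exact Or.inl ⟨h1, h3⟩
          · right
            push Not at h3
            have hδp : 0 < δ := by
              rcases hδ0.eq_or_lt with h0 | h0
              · rw [← h0, mul_zero] at h2
                exact absurd h2 (not_lt.2 (abs_nonneg _))
              · exact h0
            exact ⟨hδp, (div_le_self hδ0 hp1).trans h3, h2⟩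
      · refine ⟨{ξ | (∀ q, |ξ q| ≤ 2 ^ s) ∧ |g ξ| < δ}, ?_, ?_⟩
        · exact ih c T₀ (by
            intro x hx
            rcases Finset.mem_insert.1 (hT hx) with rfl | h
            · exact absurd hx hqT
            · exact h)
        · rintro ξ ⟨h1, h2⟩
          rw [Finset.card_insert_of_notMem hq, pow_succ', mul_assoc, ← hδ, ev_insert c hq] at h2
          by_cases h3 : |g ξ| < δ
          · exact Or.inl ⟨h1, h3⟩
          · right
            push Not at h3
            have hδp : 0 < δ := by
              rcases hδ0.eq_or_lt with h0 | h0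
              · rw [← h0, mul_zero] at h2
                exact absurd h2 (not_lt.2 (abs_nonneg _))
              · exact h0
            refine ⟨hδp, ?_, h2⟩
            by_contra h4
            push Not at h4
            have h5 : |ξ q * h ξ| ≤ δ / 2 := by
              rw [abs_mul]
              calc |ξ q| * |h ξ| ≤ 2 ^ s * (δ / 2 ^ (s + 1)) :=
                    mul_le_mul (h1 q) h4.le (abs_nonneg _) (by positivity)
                _ = δ / 2 := by
                    rw [pow_succ]
                    field_simp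
            have h6 : |g ξ| ≤ |g ξ + ξ q * h ξ| + |ξ q * h ξ| := by
              have := abs_sub (g ξ + ξ q * h ξ) (ξ q * h ξ)
              rwa [add_sub_cancel_right] at this
            have h7 : η * δ ≤ δ / 2 := by
              have := mul_le_mul_of_nonneg_right hη1 hδ0
              linarith
            change |g ξ + ξ q * h ξ| < η * δ at h2
            linarith
    obtain ⟨F, hF1, hF2⟩ := hkey
    calc Measure.pi ν _ ≤ Measure.pi ν (F ∪ E) := measure_mono hF2
      _ ≤ Measure.pi ν F + Measure.pi ν E := measure_union_le _ _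
      _ ≤ S.card * ENNReal.ofReal (2 ^ s * ε) + ENNReal.ofReal (2 ^ s * ε) :=
          add_le_add hF1 hE2
      _ = ((insert q S).card : ℝ≥0∞) * ENNReal.ofReal (2 ^ s * ε) := by
          rw [Finset.card_insert_of_notMem hq]
          push_cast
          ring

end Pool.Agent.Q203.LPR
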