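import Pool.Agent.Q203.LPR.AC

/-!
# Minors of matrices with random entries as multiaffine functions
-/

set_option autoImplicit false

namespace Pool.Agent.Q203.LPR

open Finset MvPolynomial

/-! ### The sum of the absolute values of the coefficients -/

section L1

variable {σ : Type}

/-- The sum of the absolute values of the coefficients. -/
noncomputable def l1 (p : MvPolynomial σ ℤ) : ℤ := ∑ m ∈ p.support, |p.coeff m|

theorem l1_nonneg (p : MvPolynomial σ ℤ) : 0 ≤ l1 p :=
  Finset.sum_nonneg fun _ _ => abs_nonneg _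

theorem l1_eq (p : MvPolynomial σ ℤ) (s : Finset (σ →₀ ℕ)) (h : p.support ⊆ s) :
    l1 p = ∑ m ∈ s, |p.coeff m| := by
  unfold l1
  apply Finset.sum_subset h
  intro m _ hm
  rw [MvPolynomial.notMem_support_iff.1 hm, abs_zero]

theorem coeff_le_l1 (p : MvPolynomial σ ℤ) (a : σ →₀ ℕ) : |p.coeff a| ≤ l1 p := by
  by_cases ha : a ∈ p.support
  · exact Finset.single_le_sum (f := fun a => |p.coeff a|) (fun _ _ => abs_nonneg _) ha
  · rw [MvPolynomial.notMem_support_iff] at ha
    rw [ha, abs_zero]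
    exact l1_nonneg p

theorem l1_zero : l1 (0 : MvPolynomial σ ℤ) = 0 := by simp [l1]

theorem l1_add (p q : MvPolynomial σ ℤ) : l1 (p + q) ≤ l1 p + l1 q := by
  classical
  have h : (p + q).support ⊆ p.support ∪ q.support := MvPolynomial.support_add
  rw [l1_eq (p + q) _ h, l1_eq p _ Finset.subset_union_left, l1_eq q _ Finset.subset_union_right,
    ← Finset.sum_add_distrib]
  apply Finset.sum_le_sum
  intro m _
  rw [coeff_add]
  exact abs_add_le _ _

theorem l1_sum {ι : Type} (s : Finset ι) (f : ι → MvPolynomial σ ℤ) :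
    l1 (∑ i ∈ s, f i) ≤ ∑ i ∈ s, l1 (f i) := by
  classical
  induction s using Finset.induction_on with
  | empty => simp [l1_zero]
  | insert a s ha ih =>
    rw [Finset.sum_insert ha, Finset.sum_insert ha]
    exact (l1_add _ _).trans (by linarith)

theorem l1_monomial (m : σ →₀ ℕ) (a : ℤ) : l1 (monomial m a) = |a| := by
  classical
  rw [l1_eq (monomial m a) {m} support_monomial_subset, Finset.sum_singleton, coeff_monomial,
    if_pos rfl]

theorem l1_mul (P Q : MvPolynomial σ ℤ) : l1 (P * Q) ≤ l1 P * l1 Q := by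
  have h1 : P * Q = ∑ a ∈ P.support, ∑ b ∈ Q.support,
      monomial (a + b) (coeff a P * coeff b Q) := by
    conv_lhs => rw [P.as_sum, Q.as_sum, Finset.sum_mul_sum]
    simp_rw [monomial_mul]
  rw [h1]
  refine (l1_sum' _ _).trans ?_
  rw [l1, l1, Finset.sum_mul_sum]
  apply Finset.sum_le_sum
  intro a _
  refine (l1_sum' _ _).trans ?_
  apply Finset.sum_le_sum
  intro b _
  rw [l1_monomial, abs_mul]
where
  l1_sum' {ι : Type} (s : Finset ι) (f : ι → MvPolynomial σ ℤ) :
    l1 (∑ i ∈ s, f i) ≤ ∑ i ∈ s, l1 (f i) := l1_sum s f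

theorem l1_one : l1 (1 : MvPolynomial σ ℤ) = 1 := by
  have : (1 : MvPolynomial σ ℤ) = monomial 0 1 := rfl
  rw [this, l1_monomial]
  simp

theorem l1_prod {ι : Type} (s : Finset ι) (f : ι → MvPolynomial σ ℤ) (B : ℤ) (hB : 0 ≤ B)
    (h : ∀ i ∈ s, l1 (f i) ≤ B) : l1 (∏ i ∈ s, f i) ≤ B ^ s.card := by
  classical
  induction s using Finset.induction_on with
  | empty => simp [l1_one]
  | insert a s ha ih =>
    rw [Finset.prod_insert ha, Finset.card_insert_of_notMem ha, pow_succ']
    refine (l1_mul _ _).trans ?_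
    exact mul_le_mul (h a (Finset.mem_insert_self _ _))
      (ih fun i hi => h i (Finset.mem_insert_of_mem hi)) (l1_nonneg _) hB

theorem l1_smul_sign {r : ℕ} (π : Equiv.Perm (Fin r)) (p : MvPolynomial σ ℤ) :
    l1 (C ((Equiv.Perm.sign π : ℤˣ) : ℤ) * p) ≤ l1 p := by
  refine (l1_mul _ _).trans ?_
  have h : l1 (C ((Equiv.Perm.sign π : ℤˣ) : ℤ) : MvPolynomial σ ℤ) = 1 := by
    have h1 : (C ((Equiv.Perm.sign π : ℤˣ) : ℤ) : MvPolynomial σ ℤ) =
      monomial 0 ((Equiv.Perm.sign π : ℤˣ) : ℤ) := rfl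
    rw [h1, l1_monomial]
    rcases Int.units_eq_one_or (Equiv.Perm.sign π) with h | h <;> rw [h] <;> simp
  rw [h, one_mul]

end L1

/-! ### Small polynomials -/

/-- The integer polynomial `p` in `K` variables has degree at most `d` in each variable, and its
coefficients have absolute value at most `2 ^ s`. -/
def Small {K : ℕ} (d s : ℕ) (p : MvPolynomial (Fin K) ℤ) : Prop :=
  (∀ k, p.degreeOf k ≤ d) ∧ ∀ e, |p.coeff e| ≤ 2 ^ s

/-- Exponent vectors. -/
noncomputable def ex {K d : ℕ} (e : Fin K → Fin (d + 1)) : Fin K →₀ ℕ :=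
  Finsupp.equivFunOnFinite.symm fun k => (e k : ℕ)

theorem ex_injective {K d : ℕ} : Function.Injective (ex (K := K) (d := d)) := by
  intro a b h
  have h1 := Finsupp.equivFunOnFinite.symm.injective h
  funext k
  exact Fin.ext (congrFun h1 k)

theorem support_sub {K d : ℕ} {p : MvPolynomial (Fin K) ℤ} (h : ∀ k, p.degreeOf k ≤ d) :
    p.support ⊆ Finset.univ.image (ex (K := K) (d := d)) := by
  intro u hu
  rw [Finset.mem_image]
  have h1 : ∀ k, u k < d + 1 := by
    intro k
    have h2 : u k ≤ p.degreeOf k := by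
      rw [degreeOf_eq_sup]
      exact Finset.le_sup (f := fun m : Fin K →₀ ℕ => m k) hu
    have := h k
    omega
  refine ⟨fun k => ⟨u k, h1 k⟩, Finset.mem_univ _, ?_⟩
  ext k
  rfl

theorem l1_small {K d s : ℕ} {p : MvPolynomial (Fin K) ℤ} (h : Small d s p) :
    l1 p ≤ 2 ^ (s + K * d) := by
  rw [l1_eq p _ (support_sub h.1)]
  calc ∑ m ∈ Finset.univ.image (ex (K := K) (d := d)), |p.coeff m|
      ≤ ∑ _m ∈ Finset.univ.image (ex (K := K) (d := d)), (2 : ℤ) ^ s :=
        Finset.sum_le_sum fun m _ => h.2 m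
    _ = (Finset.univ.image (ex (K := K) (d := d))).card * 2 ^ s := by
        rw [Finset.sum_const, nsmul_eq_mul]
    _ ≤ ((2 : ℤ) ^ d) ^ K * 2 ^ s := by
        refine mul_le_mul_of_nonneg_right ?_ (by positivity)
        have h1 : (Finset.univ.image (ex (K := K) (d := d))).card ≤ (d + 1) ^ K := by
          refine Finset.card_image_le.trans ?_
          simp
        have h2 : (d + 1) ^ K ≤ (2 ^ d) ^ K := Nat.pow_le_pow_left Nat.lt_two_pow_self K
        exact_mod_cast h1.trans h2
    _ = 2 ^ (s + K * d) := by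
        rw [← pow_mul, ← pow_add]
        congr 1
        ring

/-- The monomials in the `θ`. -/
noncomputable def mon {K : ℕ} (θ : Fin K → ℝ) (D : ℕ) (l : Fin ((D + 1) ^ K)) : ℝ :=
  ∏ k, θ k ^ ((Fintype.equivFinOfCardEq (α := Fin K → Fin (D + 1)) (n := (D + 1) ^ K)
    (by simp)).symm l k : ℕ)

theorem span_mon {K D s : ℕ} (θ : Fin K → ℝ) {p : MvPolynomial (Fin K) ℤ}
    (hd : ∀ k, p.degreeOf k ≤ D) (hs : ∀ e, |p.coeff e| ≤ 2 ^ s) :
    ∃ y : Fin ((D + 1) ^ K) → ℤ, (∀ l, |y l| ≤ 2 ^ s) ∧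
      aeval θ p = ∑ l, (y l : ℝ) * mon θ D l := by
  classical
  set φ := Fintype.equivFinOfCardEq (α := Fin K → Fin (D + 1)) (n := (D + 1) ^ K) (by simp)
    with hφ
  refine ⟨fun l => p.coeff (ex (φ.symm l)), fun l => hs _, ?_⟩
  rw [aeval_def, eval₂_eq']
  have h1 : ∑ u ∈ p.support, (algebraMap ℤ ℝ) (coeff u p) * ∏ i, θ i ^ u i =
      ∑ u ∈ Finset.univ.image (ex (K := K) (d := D)),
        (algebraMap ℤ ℝ) (coeff u p) * ∏ i, θ i ^ u i := by
    refine Finset.sum_subset (support_sub hd) fun u _ hu => ?_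
    rw [notMem_support_iff.1 hu, map_zero, zero_mul]
  rw [h1, Finset.sum_image fun a _ b _ h => ex_injective h]
  refine Fintype.sum_equiv φ _ _ fun e => ?_
  have h2 : mon θ D (φ e) = ∏ k, θ k ^ (e k : ℕ) := by
    unfold mon
    rw [← hφ, Equiv.symm_apply_apply]
  have h3 : coeff (ex (φ.symm (φ e))) p = coeff (ex e) p := by rw [Equiv.symm_apply_apply]
  show _ = ((coeff (ex (φ.symm (φ e))) p : ℤ) : ℝ) * mon θ D (φ e)
  rw [h2, h3]
  rfl

/-! ### Minors -/

section minors

variable {K m n r : ℕ} (P R : Matrix (Fin m) (Fin n) (MvPolynomial (Fin K) ℤ))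

/-- The matrix with the entries `P + R ξ`. -/
noncomputable def mat (θ : Fin K → ℝ) (ξ : Fin m × Fin n → ℝ) : Matrix (Fin m) (Fin n) ℝ :=
  Matrix.of fun i j => aeval θ (P i j) + aeval θ (R i j) * ξ (i, j)

/-- The coefficients of a minor. -/
noncomputable def cp (f : Fin r → Fin m) (g : Fin r → Fin n) (T' : Finset (Fin m × Fin n)) :
    MvPolynomial (Fin K) ℤ :=
  ∑ π : Equiv.Perm (Fin r), ∑ T ∈ (Finset.univ : Finset (Fin r)).powerset,
    if T.image (fun i => (f (π i), g i)) = T' then
      C ((Equiv.Perm.sign π : ℤˣ) : ℤ) * ((∏ i ∈ T, R (f (π i)) (g i)) *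
        ∏ i ∈ Finset.univ \ T, P (f (π i)) (g i)) else 0

theorem det_eq (θ : Fin K → ℝ) (ξ : Fin m × Fin n → ℝ) (f : Fin r → Fin m) (g : Fin r → Fin n)
    (hf : Function.Injective f) : ((mat P R θ ξ).submatrix f g).det =
      ev (fun T' => aeval θ (cp P R f g T')) Finset.univ ξ := by
  classical
  rw [Matrix.det_apply']
  unfold ev cp
  simp only [map_sum, Finset.sum_mul]
  rw [Finset.sum_comm]
  refine Finset.sum_congr rfl fun π _ => ?_
  rw [Finset.sum_comm]
  have h1 : ∏ i, (mat P R θ ξ).submatrix f g (π i) i =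
      ∏ i, (aeval θ (R (f (π i)) (g i)) * ξ (f (π i), g i) + aeval θ (P (f (π i)) (g i))) := by
    refine Finset.prod_congr rfl fun i _ => ?_
    simp only [mat, Matrix.submatrix_apply, Matrix.of_apply]
    ring
  rw [h1, Finset.prod_add, Finset.mul_sum]
  refine Finset.sum_congr rfl fun T _ => ?_
  have hinj : Function.Injective fun i : Fin r => (f (π i), g i) := by
    intro a b hab
    exact π.injective (hf (Prod.ext_iff.1 hab).1)
  rw [Finset.sum_eq_single (T.image fun i => (f (π i), g i))]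
  · rw [if_pos rfl, Finset.prod_image fun a _ b _ h => hinj h]
    have h2 : aeval θ (C ((Equiv.Perm.sign π : ℤˣ) : ℤ) : MvPolynomial (Fin K) ℤ) =
        (((Equiv.Perm.sign π : ℤˣ) : ℤ) : ℝ) := by
      rw [aeval_C]
      simp
    simp only [map_mul, map_prod, Finset.prod_mul_distrib, h2]
    ring
  · intro T' _ hT'
    rw [if_neg (Ne.symm hT'), map_zero, zero_mul]
  · intro h
    exact absurd (Finset.mem_powerset.2 (Finset.subset_univ _)) h

theorem cp_degree {d : ℕ} (hP : ∀ i j k, (P i j).degreeOf k ≤ d)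
    (hR : ∀ i j k, (R i j).degreeOf k ≤ d) (f : Fin r → Fin m) (g : Fin r → Fin n)
    (T' : Finset (Fin m × Fin n)) (k : Fin K) : (cp P R f g T').degreeOf k ≤ r * d := by
  classical
  unfold cp
  refine (degreeOf_sum_le _ _ _).trans (Finset.sup_le fun π _ => ?_)
  refine (degreeOf_sum_le _ _ _).trans (Finset.sup_le fun T _ => ?_)
  split_ifs
  · refine (degreeOf_C_mul_le _ _ _).trans ((degreeOf_mul_le _ _ _).trans ?_)
    have h1 : (∏ i ∈ T, R (f (π i)) (g i)).degreeOf k ≤ T.card * d := by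
      refine (degreeOf_prod_le _ _ _).trans ?_
      refine (Finset.sum_le_sum fun i _ => hR _ _ _).trans ?_
      rw [Finset.sum_const, smul_eq_mul]
    have h2 : (∏ i ∈ Finset.univ \ T, P (f (π i)) (g i)).degreeOf k ≤
        (Finset.univ \ T).card * d := by
      refine (degreeOf_prod_le _ _ _).trans ?_
      refine (Finset.sum_le_sum fun i _ => hP _ _ _).trans ?_
      rw [Finset.sum_const, smul_eq_mul]
    have h3 : T.card + (Finset.univ \ T).card = r := by
      rw [← Finset.card_union_of_disjoint Finset.disjoint_sdiff,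
        Finset.union_sdiff_of_subset (Finset.subset_univ T), Finset.card_univ, Fintype.card_fin]
    calc _ ≤ T.card * d + (Finset.univ \ T).card * d := add_le_add h1 h2
      _ = (T.card + (Finset.univ \ T).card) * d := by ring
      _ = r * d := by rw [h3]
  · simp

theorem cp_l1 {B : ℤ} (hB : 0 ≤ B) (hP : ∀ i j, l1 (P i j) ≤ B)
    (hR : ∀ i j, l1 (R i j) ≤ B) (f : Fin r → Fin m) (g : Fin r → Fin n)
    (T' : Finset (Fin m × Fin n)) : l1 (cp P R f g T') ≤ r.factorial * 2 ^ r * B ^ r := by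
  classical
  unfold cp
  refine (l1_sum _ _).trans ?_
  have h0 : ∀ π ∈ (Finset.univ : Finset (Equiv.Perm (Fin r))),
      l1 (∑ T ∈ (Finset.univ : Finset (Fin r)).powerset,
        if T.image (fun i => (f (π i), g i)) = T' then
          C ((Equiv.Perm.sign π : ℤˣ) : ℤ) * ((∏ i ∈ T, R (f (π i)) (g i)) *
            ∏ i ∈ Finset.univ \ T, P (f (π i)) (g i)) else 0) ≤ 2 ^ r * B ^ r := by
    intro π _
    refine (l1_sum _ _).trans ?_
    have h1 : ∀ T ∈ (Finset.univ : Finset (Fin r)).powerset,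
        l1 (if T.image (fun i => (f (π i), g i)) = T' then
          C ((Equiv.Perm.sign π : ℤˣ) : ℤ) * ((∏ i ∈ T, R (f (π i)) (g i)) *
            ∏ i ∈ Finset.univ \ T, P (f (π i)) (g i)) else 0) ≤ B ^ r := by
      intro T _
      split_ifs
      · refine (l1_smul_sign π _).trans ((l1_mul _ _).trans ?_)
        have h2 := l1_prod T (fun i => R (f (π i)) (g i)) B hB fun i _ => hR _ _
        have h3 := l1_prod (Finset.univ \ T) (fun i => P (f (π i)) (g i)) B hB
          fun i _ => hP _ _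
        have h4 : T.card + (Finset.univ \ T).card = r := by
          rw [← Finset.card_union_of_disjoint Finset.disjoint_sdiff,
            Finset.union_sdiff_of_subset (Finset.subset_univ T), Finset.card_univ,
            Fintype.card_fin]
        calc _ ≤ B ^ T.card * B ^ (Finset.univ \ T).card :=
              mul_le_mul h2 h3 (l1_nonneg _) (pow_nonneg hB _)
          _ = B ^ r := by rw [← pow_add, h4]
      · rw [l1_zero]
        exact pow_nonneg hB _
    refine (Finset.sum_le_sum h1).trans ?_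
    rw [Finset.sum_const, Finset.card_powerset, Finset.card_univ, Fintype.card_fin, nsmul_eq_mul]
    push_cast
    exact le_rfl
  refine (Finset.sum_le_sum h0).trans ?_
  rw [Finset.sum_const, Finset.card_univ, Fintype.card_perm, Fintype.card_fin, nsmul_eq_mul,
    mul_assoc]

/-- The exponent of the bound for the coefficients. -/
def se (K m d s : ℕ) : ℕ := m * m + m + (s + K * d) * m

theorem cp_span {d s : ℕ} (hr : r ≤ m) (hP : ∀ i j, Small d s (P i j))
    (hR : ∀ i j, Small d s (R i j)) (θ : Fin K → ℝ) (f : Fin r → Fin m) (g : Fin r → Fin n)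
    (T' : Finset (Fin m × Fin n)) :
    ∃ y : Fin ((m * d + 1) ^ K) → ℤ, (∀ l, |y l| ≤ 2 ^ se K m d s) ∧
      aeval θ (cp P R f g T') = ∑ l, (y l : ℝ) * mon θ (m * d) l := by
  refine span_mon θ (fun k => ?_) (fun e => ?_)
  · exact (cp_degree P R (fun i j => (hP i j).1) (fun i j => (hR i j).1) f g T' k).trans
      (Nat.mul_le_mul_right d hr)
  · refine (coeff_le_l1 _ _).trans ?_
    refine (cp_l1 P R (B := 2 ^ (s + K * d)) (by positivity) (fun i j => l1_small (hP i j))
      (fun i j => l1_small (hR i j)) f g T').trans ?_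
    have h1 : (r.factorial : ℤ) ≤ 2 ^ (m * m) := by
      have h2 : r.factorial ≤ r ^ r := Nat.factorial_le_pow r
      have h3 : r ^ r ≤ (2 ^ m) ^ m := by
        rcases Nat.eq_zero_or_pos r with h | h
        · subst h
          simpa using Nat.one_le_pow _ _ (by positivity)
        · exact (Nat.pow_le_pow_right h hr).trans
            (Nat.pow_le_pow_left (hr.trans Nat.lt_two_pow_self.le) m)
      rw [← pow_mul] at h3
      exact_mod_cast h2.trans h3
    have h2 : (2 : ℤ) ^ r ≤ 2 ^ m := pow_le_pow_right₀ (by norm_num) hr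
    have h3 : ((2 : ℤ) ^ (s + K * d)) ^ r ≤ 2 ^ ((s + K * d) * m) := by
      rw [← pow_mul]
      exact pow_le_pow_right₀ (by norm_num) (Nat.mul_le_mul_left _ hr)
    have h4 : (2 : ℤ) ^ se K m d s = 2 ^ (m * m) * 2 ^ m * 2 ^ ((s + K * d) * m) := by
      unfold se
      rw [pow_add, pow_add]
    rw [h4]
    exact mul_le_mul (mul_le_mul h1 h2 (by positivity) (by positivity)) h3 (by positivity)
      (by positivity)

end minors

end Pool.Agent.Q203.LPR
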