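import Pool.Agent.Q203.LPR.Scale
import Pool.Agent.Y648.CX.All

/-!
# The algorithm on random instances
-/

set_option autoImplicit false

namespace Pool.Agent.Q203.LPR

open Finset MeasureTheory
open scoped ENNReal
open Pool.Agent.H558R2 Pool.Agent.H622R3.SM
open Pool.Agent.Y648.CS

/-- The algorithm `α` stops on the instance `(A, b)` with the correct answer after at most `T`
elementary steps, never dividing by zero. -/
def Decides (α : Alg) (T : ℕ) {m n : ℕ} (A : Matrix (Fin m) (Fin n) ℝ) (b : Fin m → ℝ) : Prop :=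
  ∃ ans nums steps, run ∅ (α m n) T [] (start A b) = some (ans, nums, steps) ∧
    (ans = true ↔ ∃ x : Fin n → ℝ, b ≤ A.mulVec x) ∧ steps ≤ T

/-- More time does not change the result. -/
theorem run_mono (O : Set (List Bool)) (α : List Outcome → List Instr × Test)
    (x : Bool × List ℝ × ℕ) : ∀ (k k' : ℕ) (h : List Outcome) (ρ : Reg → ℝ), k ≤ k' →
      run O α k h ρ = some x → run O α k' h ρ = some x := by
  intro k
  induction k generalizing x with
  | zero =>
    intro k' h ρ _ h1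
    simp [run] at h1
  | succ k ih =>
    intro k' h ρ hk h1
    obtain ⟨k'', rfl⟩ : ∃ k'', k' = k'' + 1 := ⟨k' - 1, by omega⟩
    unfold run at h1 ⊢
    rw [Option.bind_eq_some_iff] at h1 ⊢
    obtain ⟨r, hr, h2⟩ := h1
    refine ⟨r, hr, ?_⟩
    cases hα : (α h).2 with
    | answer a =>
      rw [hα] at h2
      exact h2
    | sign y =>
      rw [hα] at h2
      simp only [Option.map_eq_some_iff] at h2 ⊢
      obtain ⟨z, hz, h3⟩ := h2
      exact ⟨z, ih z k'' _ _ (by omega) hz, h3⟩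
    | ask w =>
      rw [hα] at h2
      simp only [Option.map_eq_some_iff] at h2 ⊢
      obtain ⟨z, hz, h3⟩ := h2
      exact ⟨z, ih z k'' _ _ (by omega) hz, h3⟩

theorem Decides.mono {α : Alg} {T T' m n : ℕ} {A : Matrix (Fin m) (Fin n) ℝ} {b : Fin m → ℝ}
    (h : Decides α T A b) (hT : T ≤ T') : Decides α T' A b := by
  obtain ⟨ans, nums, steps, h1, h2, h3⟩ := h
  exact ⟨ans, nums, steps, run_mono _ _ _ _ _ _ _ hT h1, h2, h3.trans hT⟩

/-- The left kernel of `A`: the vectors `C` with `C A = 0`. -/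
def leftKernel {m n : ℕ} (A : Matrix (Fin m) (Fin n) ℝ) : Submodule ℝ (Fin m → ℝ) :=
  LinearMap.ker (Matrix.vecMulLinear A)

/-- `L` is a subspace of `L'` of codimension at most one. -/
def Within {m : ℕ} (L L' : Submodule ℝ (Fin m → ℝ)) : Prop :=
  L ≤ L' ∧ Module.finrank ℝ L' ≤ Module.finrank ℝ L + 1

/-- `A` arises from `M`: the rows are multiplied by nonzero numbers, which gives a matrix `M'`, and
the left kernel of one of the matrices `A`, `M'` is contained in the left kernel of the other one,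
with codimension at most one. -/
def Close {m n : ℕ} (M A : Matrix (Fin m) (Fin n) ℝ) : Prop :=
  ∃ ρ : Fin m → ℝ, (∀ i, ρ i ≠ 0) ∧
    (Within (leftKernel (Matrix.of fun i j => ρ i * M i j)) (leftKernel A) ∨
      Within (leftKernel A) (leftKernel (Matrix.of fun i j => ρ i * M i j)))

theorem few_mono {r r' m : ℕ} (h : r ≤ r') {L : Submodule ℝ (Fin m → ℝ)} (hL : V.FewE r L) :
    V.FewE r' L := by
  obtain ⟨S, h1, h2⟩ := hL
  refine ⟨S, fun i j => ⟨(h1 i j).1.trans h, (h1 i j).2⟩, fun C hC i j hi hj => ?_⟩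
  obtain ⟨s, hs, h3, h4⟩ := h2 C hC i j hi hj
  exact ⟨s, hs, h3, h4.trans (mul_le_mul_of_nonneg_right (pow_le_pow_right₀ (by norm_num) h)
    ((h1 i j).2 s hs).le)⟩

theorem few_of {r m n : ℕ} {A : Matrix (Fin m) (Fin n) ℝ} (h : W.Scales r A) :
    V.FewE r (leftKernel A) := by
  choose S h1 h2 h3 using h
  refine ⟨S, fun i j => ⟨h1 i j, h2 i j⟩, fun C hC i j hi hj => ?_⟩
  exact h3 i j C ⟨hC.2.1, hC.1, fun D hD hs => hC.2.2 D hD hs⟩ hi hj

theorem scales_mono {r r' m n : ℕ} (h : r ≤ r') {A : Matrix (Fin m) (Fin n) ℝ}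
    (hA : W.Scales r A) : W.Scales r' A := by
  intro i j
  obtain ⟨S, h1, h2, h3⟩ := hA i j
  refine ⟨S, h1.trans h, h2, fun C hC hi hj => ?_⟩
  obtain ⟨s, hs, h4, h5⟩ := h3 C hC hi hj
  exact ⟨s, hs, h4, h5.trans (mul_le_mul_of_nonneg_right (pow_le_pow_right₀ (by norm_num) h)
    (h2 s hs).le)⟩

/-! ### Polynomial bounds -/

section poly

open Polynomial

/-- The number of monomials. -/
noncomputable def pN (K : ℕ) : ℕ[X] := (X * X + 1) ^ K
/-- The coefficients. -/
noncomputable def pse (K : ℕ) : ℕ[X] := X * X + X + (X + (K : ℕ[X]) * X) * X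
/-- The width. -/
noncomputable def pwd (K : ℕ) : ℕ[X] := pN K + (pN K + pse K) * pN K
/-- The exponent. -/
noncomputable def pE : ℕ[X] := X + (X + (X + (X + X * X)))
/-- The width of the windows of the minors. -/
noncomputable def plL (K : ℕ) : ℕ[X] := (pE + X + 1) * (X * X) + pwd K
/-- The number of scales. -/
noncomputable def prr (K : ℕ) : ℕ[X] := pN K * pN K + 4 * plL K + 1

theorem prr_le (K m n d s t x : ℕ) (hx : m + n + d + s + t ≤ x) :
    1 ≤ (prr K).eval x ∧ (m * d + 1) ^ K * (m * d + 1) ^ K ≤ (prr K).eval x ∧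
      4 * lL K m n d s t ≤ (prr K).eval x := by
  have hm : m ≤ x := by omega
  have hn : n ≤ x := by omega
  have hd : d ≤ x := by omega
  have hs : s ≤ x := by omega
  have ht : t ≤ x := by omega
  have hmn : m + n ≤ x := by omega
  have h1 : (m * d + 1) ^ K ≤ (pN K).eval x := by
    simp only [pN, eval_pow, eval_add, eval_mul, eval_X, eval_one]
    exact Nat.pow_le_pow_left (Nat.add_le_add_right (Nat.mul_le_mul hm hd) 1) K
  have h2 : se K m d s ≤ (pse K).eval x := by
    simp only [pse, se, eval_add, eval_mul, eval_X, eval_natCast, Nat.cast_id]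
    gcongr
  have h3 : Pool.Agent.Y648.CS.W.TSPAN.wd ((m * d + 1) ^ K) (se K m d s) ≤ (pwd K).eval x := by
    unfold Pool.Agent.Y648.CS.W.TSPAN.wd
    simp only [pwd, eval_add, eval_mul]
    gcongr
  have h4 : eE m n s t ≤ pE.eval x := by
    simp only [pE, eE, eval_add, eval_mul, eval_X]
    gcongr
  have h5 : lL K m n d s t ≤ (plL K).eval x := by
    unfold lL
    simp only [plL, eval_add, eval_mul, eval_X, eval_one]
    gcongr
  simp only [prr, eval_add, eval_mul, eval_one, eval_ofNat]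
  refine ⟨by omega, ?_, by omega⟩
  have h6 := Nat.mul_le_mul h1 h1
  omega

end poly

/-! ### The algorithm -/

theorem close_near {m n r : ℕ} {M A : Matrix (Fin m) (Fin n) ℝ}
    (hM : ∀ (A : Matrix (Fin m) (Fin n) ℝ) (ρ : Fin m → ℝ) (G : Matrix (Fin n) (Fin n) ℝ),
      (∀ i, ρ i ≠ 0) → G.det ≠ 0 → (∀ i j, ρ i * A i j = (M * G) i j) → W.Scales r A)
    (h : Close M A) : V.NearE r A := by
  obtain ⟨ρ, hρ, h⟩ := h
  refine ⟨leftKernel (Matrix.of fun i j => ρ i * M i j), h, few_of ?_⟩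
  refine hM _ (fun i => (ρ i)⁻¹) 1 (fun i => inv_ne_zero (hρ i)) (by simp) fun i j => ?_
  rw [Matrix.mul_one, Matrix.of_apply, ← mul_assoc, inv_mul_cancel₀ (hρ i), one_mul]

/-- The bound for the number of steps. -/
theorem decides_of_near : ∃ p₀ : Polynomial ℕ, ∀ m n : ℕ, 1 ≤ m → 1 ≤ n →
    ∀ (A : Matrix (Fin m) (Fin n) ℝ) (b : Fin m → ℝ) (r : ℕ), V.NearE r A →
      Decides W.algW (p₀.eval (m + n + r)) A b := by
  obtain ⟨p₀, h⟩ := V.main.2.2
  refine ⟨p₀, fun m n hm hn A b r hr => ?_⟩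
  obtain ⟨ans, nums, steps, h1, h2, h3, -⟩ := h m n hm hn A b r hr
  exact ⟨ans, nums, steps, h1, h2, h3⟩

theorem decides_all : ∃ p₀ : Polynomial ℕ, ∀ m n : ℕ, 1 ≤ m → 1 ≤ n →
    ∀ (A : Matrix (Fin m) (Fin n) ℝ) (b : Fin m → ℝ),
      Decides W.algW (p₀.eval (m + n + 2 ^ m)) A b := by
  obtain ⟨p₀, h⟩ := decides_of_near
  refine ⟨p₀, fun m n hm hn A b => h m n hm hn A b _ ⟨V.lker A, Or.inl ⟨le_rfl, by omega⟩, ?_⟩⟩
  exact V.t_TOTG m _

theorem rational : ∃ p : Polynomial ℕ, ∀ m n : ℕ, 1 ≤ m → 1 ≤ n →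
    ∀ (A : Matrix (Fin m) (Fin n) ℚ) (b : Fin m → ℚ), ∃ ans nums steps,
      run ∅ (W.algW m n) (p.eval (inputLength A b)) []
        (start (fun i j => ((A i j : ℚ) : ℝ)) (fun i => ((b i : ℚ) : ℝ))) =
          some (ans, nums, steps) ∧
      (ans = true ↔ ∃ x : Fin n → ℝ, (fun i => ((b i : ℚ) : ℝ)) ≤
        (Matrix.of fun i j => ((A i j : ℚ) : ℝ)).mulVec x) ∧ steps ≤ p.eval (inputLength A b) ∧
      ∀ v ∈ nums, ∃ q : ℚ, (q : ℝ) = v ∧ bitLength q ≤ p.eval (inputLength A b) := by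
  obtain ⟨p₀, h⟩ := V.main.2.2
  obtain ⟨q, hq⟩ := W.t_SPAN
  obtain ⟨q', hq'⟩ := V.t_RAT
  set R : Polynomial ℕ := q.comp (Polynomial.X + 1 + q') with hR
  refine ⟨p₀.comp (2 * Polynomial.X + R), fun m n hm hn A b => ?_⟩
  set ℓ := inputLength A b with hℓ
  have hmn : m + n ≤ ℓ := FL.le_inputLength hm A b
  have hℓ0 : inputLength A 0 ≤ ℓ := by
    unfold inputLength at hℓ ⊢
    rw [hℓ]
    refine Nat.add_le_add_left (Finset.sum_le_sum fun i _ => ?_) _
    have h1 : bitLength ((0 : Fin m → ℚ) i) = 2 := by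
      simp [bitLength]
    rw [h1]
    have h2 : 0 < Nat.size (b i).den := Nat.size_pos.2 (b i).den_pos
    unfold bitLength
    omega
  have h1 := hq m n 1 _ _ (hq' m n A)
  have h2 : q.eval (m + n + 1 + q'.eval (inputLength A 0)) ≤ R.eval ℓ := by
    simp only [hR, Polynomial.eval_comp, Polynomial.eval_add, Polynomial.eval_X,
      Polynomial.eval_one]
    refine pe_mono q ?_
    have := pe_mono q' hℓ0
    omega
  have h3 := few_of (scales_mono h2 h1)
  set r := R.eval ℓ with hr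
  obtain ⟨ans, nums, steps, h4, h5, h6, h7⟩ := h m n hm hn (Matrix.of fun i j => ((A i j : ℚ) : ℝ))
    (fun i => ((b i : ℚ) : ℝ)) r ⟨V.lker _, Or.inl ⟨le_rfl, by omega⟩,
      h3⟩
  have h9 : (p₀.comp (2 * Polynomial.X + R)).eval ℓ = p₀.eval (2 * ℓ + r) := by
    simp only [Polynomial.eval_comp, Polynomial.eval_add, Polynomial.eval_mul, Polynomial.eval_X,
      Polynomial.eval_ofNat]
    rfl
  rw [h9]
  have h10 : p₀.eval (m + n + r) ≤ p₀.eval (2 * ℓ + r) := pe_mono p₀ (by omega)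
  refine ⟨ans, nums, steps, run_mono _ _ _ _ _ _ _ h10 h4, h5, h6.trans h10, fun v hv => ?_⟩
  obtain ⟨q, hq, hq2⟩ := h7 A b (fun i j => rfl) (fun i => rfl) v hv
  exact ⟨q, hq, hq2.trans (pe_mono p₀ (by omega))⟩

/-- Random instances. -/
theorem random (K : ℕ) : ∃ p : Polynomial ℕ, ∀ m n d s t : ℕ, 1 ≤ m → 1 ≤ n →
    ∀ (θ : Fin K → ℝ) (P R : Matrix (Fin m) (Fin n) (MvPolynomial (Fin K) ℤ)),
      (∀ i j, Small d s (P i j)) → (∀ i j, Small d s (R i j)) →
      ∀ (ν : Fin m × Fin n → Measure ℝ) [∀ q, IsProbabilityMeasure (ν q)],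
        (∀ q, SpreadAt s ((1 / 2) ^ eE m n s t) (ν q)) →
        Measure.pi ν {ξ | ∃ A b, Close (mat P R θ ξ) A ∧
          ¬ Decides W.algW (p.eval (m + n + d + s + t)) A b} ≤ (1 / 2) ^ t := by
  obtain ⟨p₀, h⟩ := decides_of_near
  refine ⟨p₀.comp (Polynomial.X + prr K), ?_⟩
  intro m n d s t hm hn θ P R hP hR ν _ hν
  set x := m + n + d + s + t with hx
  obtain ⟨h1, h2, h3⟩ := prr_le K m n d s t x le_rfl
  set r := (d + s + t) + (prr K).eval x with hr
  refine (measure_mono ?_).trans (prob (r := r) hP hR θ (by omega) (by omega) (by omega) ν hν)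
  rintro ξ ⟨A, b, hA, hdec⟩ hall
  apply hdec
  have h4 := h m n hm hn A b r (close_near hall hA)
  have h5 : (p₀.comp (Polynomial.X + prr K)).eval x = p₀.eval (m + n + r) := by
    rw [Polynomial.eval_comp, Polynomial.eval_add, Polynomial.eval_X]
    congr 1
    omega
  rw [h5]
  exact h4

/-! ### Integer matrices -/

/-- The uniform distribution on the multiples of `1 / H` in `[-1, 1]`. -/
noncomputable def uni (H : ℕ) : Measure ℝ :=
  ∑ a ∈ Finset.Icc (-(H : ℤ)) H, ((2 * H + 1 : ℕ) : ℝ≥0∞)⁻¹ • Measure.dirac ((a : ℝ) / H)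

theorem uni_apply (H : ℕ) {S : Set ℝ} (hS : MeasurableSet S)
    [DecidablePred fun a : ℤ => (a : ℝ) / H ∈ S] :
    uni H S = (((Finset.Icc (-(H : ℤ)) H).filter fun a : ℤ => (a : ℝ) / H ∈ S).card : ℝ≥0∞) *
      ((2 * H + 1 : ℕ) : ℝ≥0∞)⁻¹ := by
  unfold uni
  rw [Measure.coe_finsetSum, Finset.sum_apply, Finset.card_filter, Nat.cast_sum, Finset.sum_mul]
  refine Finset.sum_congr rfl fun a _ => ?_
  rw [Measure.smul_apply, Measure.dirac_apply' _ hS, smul_eq_mul]
  by_cases ha : (a : ℝ) / H ∈ S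
  · rw [Set.indicator_of_mem ha, if_pos ha]
    simp
  · rw [Set.indicator_of_notMem ha, if_neg ha]
    simp

theorem card_box (H : ℕ) : (Finset.Icc (-(H : ℤ)) H).card = 2 * H + 1 := by
  rw [Int.card_Icc]
  omega

instance uni_prob (H : ℕ) : IsProbabilityMeasure (uni H) := by
  classical
  constructor
  rw [uni_apply H MeasurableSet.univ]
  have h : ((Finset.Icc (-(H : ℤ)) H).filter fun a : ℤ => (a : ℝ) / H ∈ (Set.univ : Set ℝ)).card =
      2 * H + 1 := by
    rw [Finset.filter_true_of_mem fun _ _ => Set.mem_univ _, card_box]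
  rw [h]
  exact ENNReal.mul_inv_cancel (Nat.cast_ne_zero.2 (by omega)) (ENNReal.natCast_ne_top _)

theorem uni_spread {H : ℕ} {ε : ℝ} (hε : 0 < ε) (hH : 1 ≤ H * ε) : SpreadAt 1 ε (uni H) := by
  classical
  have hH0 : (0 : ℝ) < H := by
    rcases Nat.eq_zero_or_pos H with h | h
    · subst h
      norm_num at hH
    · exact_mod_cast h
  constructor
  · have hm : MeasurableSet {x : ℝ | 2 ^ 1 < |x|} :=
      measurableSet_lt measurable_const (by fun_prop)
    rw [uni_apply H hm]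
    have : ((Finset.Icc (-(H : ℤ)) H).filter fun a : ℤ => (a : ℝ) / H ∈ {x : ℝ | 2 ^ 1 < |x|}) = ∅ := by
      rw [Finset.filter_eq_empty_iff]
      intro a ha h
      rw [Finset.mem_Icc] at ha
      have h1 : |(a : ℝ)| ≤ H := by
        rw [abs_le]
        exact ⟨by exact_mod_cast ha.1, by exact_mod_cast ha.2⟩
      have h2 : |(a : ℝ) / H| ≤ 1 := by
        rw [abs_div, abs_of_pos hH0, div_le_one hH0]
        exact h1
      have h3 : (2 : ℝ) ^ 1 < |(a : ℝ) / H| := h
      linarith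
    rw [this]
    simp
  · intro a
    rw [uni_apply H measurableSet_Icc]
    set F := (Finset.Icc (-(H : ℤ)) H).filter fun z : ℤ => (z : ℝ) / H ∈ Set.Icc (a - ε) (a + ε)
      with hF
    have h1 : (F.card : ℝ) ≤ 3 * (H * ε) := by
      have hsub : F ⊆ Finset.Icc ⌈H * (a - ε)⌉ ⌊H * (a + ε)⌋ := by
        intro z hz
        rw [hF, Finset.mem_filter] at hz
        obtain ⟨-, h2, h3⟩ := hz
        rw [le_div_iff₀ hH0] at h2
        rw [div_le_iff₀ hH0] at h3
        rw [Finset.mem_Icc]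
        exact ⟨Int.ceil_le.2 (by linarith), Int.le_floor.2 (by linarith)⟩
      have h4 : F.card ≤ (⌊H * (a + ε)⌋ + 1 - ⌈H * (a - ε)⌉).toNat := by
        refine (Finset.card_le_card hsub).trans ?_
        rw [Int.card_Icc]
      have h5 : ((⌊H * (a + ε)⌋ + 1 - ⌈H * (a - ε)⌉).toNat : ℝ) ≤ 2 * (H * ε) + 1 := by
        have h6 := Int.floor_le (H * (a + ε))
        have h7 := Int.le_ceil (H * (a - ε))
        rcases le_or_gt 0 (⌊H * (a + ε)⌋ + 1 - ⌈H * (a - ε)⌉) with h8 | h8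
        · have h9 : ((⌊H * (a + ε)⌋ + 1 - ⌈H * (a - ε)⌉).toNat : ℝ) =
              ((⌊H * (a + ε)⌋ + 1 - ⌈H * (a - ε)⌉ : ℤ) : ℝ) := by
            exact_mod_cast congrArg (Int.cast (R := ℝ)) (Int.toNat_of_nonneg h8)
          rw [h9]
          push_cast
          nlinarith
        · rw [Int.toNat_of_nonpos h8.le]
          have : 0 ≤ (H : ℝ) * ε := by positivity
          push_cast
          linarith
      have h10 : (F.card : ℝ) ≤ ((⌊H * (a + ε)⌋ + 1 - ⌈H * (a - ε)⌉).toNat : ℝ) := by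
        exact_mod_cast h4
      linarith
    have h2 : (F.card : ℝ≥0∞) * ((2 * H + 1 : ℕ) : ℝ≥0∞)⁻¹ =
        ENNReal.ofReal (F.card * ((2 * H + 1 : ℕ) : ℝ)⁻¹) := by
      rw [ENNReal.ofReal_mul (by positivity), ENNReal.ofReal_inv_of_pos (by positivity),
        ENNReal.ofReal_natCast, ENNReal.ofReal_natCast]
    rw [h2]
    refine ENNReal.ofReal_le_ofReal ?_
    rw [← div_eq_mul_inv, div_le_iff₀ (by positivity)]
    push_cast
    nlinarith

theorem small_det {m n E r : ℕ} (hk : r ≤ m) (A : Matrix (Fin m) (Fin n) ℤ)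
    (hA : ∀ i j, |A i j| ≤ 2 ^ E) (f : Fin r → Fin m) (h : Fin r → Fin n) :
    |(A.submatrix f h).det| ≤ 2 ^ (m * m + E * m) := by
  have h1 := Matrix.det_le (A := A.submatrix f h) (abv := AbsoluteValue.abs) (x := 2 ^ E)
    (fun i j => hA _ _)
  rw [Fintype.card_fin, nsmul_eq_mul] at h1
  have h1' : |(A.submatrix f h).det| ≤ (r.factorial : ℤ) * (2 ^ E) ^ r := h1
  refine (h1'.trans ?_)
  have h2 : (r.factorial : ℤ) ≤ 2 ^ (m * m) := by
    have h3 : r.factorial ≤ r ^ r := Nat.factorial_le_pow r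
    have h4 : r ^ r ≤ (2 ^ m) ^ m := by
      rcases Nat.eq_zero_or_pos r with h | h
      · rw [h]
        simpa using Nat.one_le_pow _ _ (by positivity)
      · exact (Nat.pow_le_pow_right h hk).trans
          (Nat.pow_le_pow_left (hk.trans Nat.lt_two_pow_self.le) m)
    rw [← pow_mul] at h4
    exact_mod_cast h3.trans h4
  have h5 : ((2 : ℤ) ^ E) ^ r ≤ 2 ^ (E * m) := by
    rw [← pow_mul]
    exact pow_le_pow_right₀ (by norm_num) (Nat.mul_le_mul_left _ hk)
  rw [pow_add]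
  exact mul_le_mul h2 h5 (by positivity) (by positivity)

theorem small_span {m n E : ℕ} (A : Matrix (Fin m) (Fin n) ℤ) (hA : ∀ i j, |A i j| ≤ 2 ^ E) :
    W.MinSpan 1 (m * m + E * m) (Matrix.of fun i j => ((A i j : ℤ) : ℝ)) := by
  refine ⟨fun _ => 1, Matrix.of fun i j => ((A i j : ℤ) : ℝ), 1, fun _ => 1,
    fun _ => one_ne_zero, by simp, fun i j => by simp, fun f h => ?_⟩
  refine ⟨fun _ => (A.submatrix f h).det, fun _ => ?_, ?_⟩
  · refine small_det ?_ A hA f h
    refine (Matrix.rank_le_card_height _).trans ?_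
    rw [Fintype.card_fin]
  · have h1 : (Matrix.of fun i j => ((A i j : ℤ) : ℝ)).submatrix f h =
        (A.submatrix f h).map (Int.castRingHom ℝ) := by
      ext a b
      rfl
    rw [h1, ← RingHom.mapMatrix_apply, ← RingHom.map_det]
    simp

theorem small_zero {K d s : ℕ} : Small d s (0 : MvPolynomial (Fin K) ℤ) := by
  refine ⟨fun k => by simp, fun e => ?_⟩
  rw [MvPolynomial.coeff_zero, abs_zero]
  positivity

theorem small_one {K d s : ℕ} : Small d s (1 : MvPolynomial (Fin K) ℤ) := by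
  classical
  refine ⟨fun k => by simp, fun e => ?_⟩
  rw [MvPolynomial.coeff_one]
  split_ifs
  · rw [abs_one]
    exact one_le_pow₀ (by norm_num)
  · rw [abs_zero]
    positivity

/-- Random integer matrices. -/
theorem integer : ∃ p : Polynomial ℕ, ∀ m n H t : ℕ, 1 ≤ m → 1 ≤ n →
    Nat.card {A : Fin m → Fin n → Finset.Icc (-(H : ℤ)) H //
      ∃ b, ¬ Decides W.algW (p.eval (m + n + t)) (Matrix.of fun i j => ((A i j : ℤ) : ℝ)) b} *
      2 ^ t ≤ (2 * H + 1) ^ (m * n) := by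
  classical
  obtain ⟨p₁, hp₁⟩ := random 0
  obtain ⟨p₀, hp₀⟩ := decides_of_near
  obtain ⟨q, hq⟩ := W.t_SPAN
  set Q : Polynomial ℕ := q.comp (Polynomial.X + 1 + (Polynomial.X * Polynomial.X +
    pE * Polynomial.X)) with hQ
  refine ⟨(p₁ + p₀.comp (Polynomial.X + Q)).comp (Polynomial.X + 1), ?_⟩
  intro m n H t hm hn
  set x := m + n + t + 1 with hx
  have hev : ((p₁ + p₀.comp (Polynomial.X + Q)).comp (Polynomial.X + 1)).eval (m + n + t) =
      p₁.eval x + p₀.eval (x + Q.eval x) := by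
    simp only [Polynomial.eval_comp, Polynomial.eval_add, Polynomial.eval_X, Polynomial.eval_one]
    rfl
  rw [hev]
  set E := eE m n 1 t with hE
  have hEx : E ≤ pE.eval x := by
    simp only [hE, pE, eE, Polynomial.eval_add, Polynomial.eval_mul, Polynomial.eval_X]
    have h1 : (m + n) * m ≤ x * x := Nat.mul_le_mul (by omega) (by omega)
    omega
  rcases le_or_gt (1 : ℝ) ((H : ℝ) * (1 / 2) ^ E) with hH | hH
  · -- large entries
    have hH0 : (0 : ℝ) < H := by
      rcases Nat.eq_zero_or_pos H with h | h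
      · subst h
        norm_num at hH
      · exact_mod_cast h
    have h1 := hp₁ m n 0 1 t hm hn Fin.elim0 0 (fun _ _ => 1) (fun _ _ => small_zero)
      (fun _ _ => small_one) (fun _ => uni H)
      (fun _ => uni_spread (by positivity) hH)
    have hx2 : m + n + 0 + 1 + t = x := by omega
    rw [hx2] at h1
    set Bad := {ξ : Fin m × Fin n → ℝ | ∃ A b,
      Close (mat (0 : Matrix (Fin m) (Fin n) (MvPolynomial (Fin 0) ℤ)) (fun _ _ => 1)
        Fin.elim0 ξ) A ∧ ¬ Decides W.algW (p₁.eval x) A b} with hBad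
    set T := {A : Fin m → Fin n → Finset.Icc (-(H : ℤ)) H //
      ∃ b, ¬ Decides W.algW (p₁.eval x + p₀.eval (x + Q.eval x))
        (Matrix.of fun i j => ((A i j : ℤ) : ℝ)) b} with hT
    set φ : T → (Fin m × Fin n → ℝ) := fun A z => ((A.1 z.1 z.2 : ℤ) : ℝ) / H with hφ
    have hinj : Function.Injective φ := by
      intro A B hAB
      apply Subtype.ext
      funext i j
      apply Subtype.ext
      have h2 := congrFun hAB (i, j)
      simp only [hφ] at h2
      have h3 := (div_left_inj' hH0.ne').1 h2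
      exact_mod_cast h3
    have hmem : ∀ A, φ A ∈ Bad := by
      rintro ⟨A, b, hA⟩
      refine ⟨Matrix.of fun i j => ((A i j : ℤ) : ℝ), b, ?_, fun h => hA (h.mono (by omega))⟩
      refine ⟨fun _ => H, fun _ => hH0.ne', Or.inl ?_⟩
      have h2 : (Matrix.of fun i j => (H : ℝ) *
          mat (0 : Matrix (Fin m) (Fin n) (MvPolynomial (Fin 0) ℤ)) (fun _ _ => 1)
            Fin.elim0 (φ ⟨A, b, hA⟩) i j) = Matrix.of fun i j => ((A i j : ℤ) : ℝ) := by
        ext i j
        simp only [mat, Matrix.of_apply, Matrix.zero_apply, map_zero, map_one, zero_add, one_mul,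
          hφ]
        field_simp
      rw [h2]
      exact ⟨le_rfl, by omega⟩
    have hsub : ((Finset.univ.image φ : Finset (Fin m × Fin n → ℝ)) : Set (Fin m × Fin n → ℝ)) ⊆
        Bad := by
      intro ξ hξ
      rw [Finset.coe_image] at hξ
      obtain ⟨A, -, rfl⟩ := hξ
      exact hmem A
    have h2 : (Nat.card T : ℝ≥0∞) * (((2 * H + 1 : ℕ) : ℝ≥0∞)⁻¹) ^ (m * n) ≤ (1 / 2) ^ t := by
      refine le_trans ?_ h1
      refine le_trans ?_ (measure_mono hsub)
      rw [← sum_measure_singleton, Finset.sum_image fun a _ b _ h => hinj h]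
      have h3 : ∀ A ∈ (Finset.univ : Finset T), (((2 * H + 1 : ℕ) : ℝ≥0∞)⁻¹) ^ (m * n) ≤
          Measure.pi (fun _ : Fin m × Fin n => uni H) {φ A} := by
        intro A _
        rw [Measure.pi_singleton]
        have h4 : ∀ z ∈ (Finset.univ : Finset (Fin m × Fin n)), ((2 * H + 1 : ℕ) : ℝ≥0∞)⁻¹ ≤
            uni H {φ A z} := by
          intro z _
          rw [uni_apply H (measurableSet_singleton _)]
          have h5 : 1 ≤ ((Finset.Icc (-(H : ℤ)) H).filter
              fun a : ℤ => (a : ℝ) / H ∈ ({φ A z} : Set ℝ)).card := by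
            rw [Nat.one_le_iff_ne_zero, ← Nat.pos_iff_ne_zero, Finset.card_pos]
            exact ⟨(A.1 z.1 z.2 : ℤ), Finset.mem_filter.2 ⟨(A.1 z.1 z.2).2, rfl⟩⟩
          calc ((2 * H + 1 : ℕ) : ℝ≥0∞)⁻¹ = 1 * ((2 * H + 1 : ℕ) : ℝ≥0∞)⁻¹ := (one_mul _).symm
            _ ≤ _ := by
              gcongr
              exact_mod_cast h5
        refine le_trans ?_ (Finset.prod_le_prod' h4)
        rw [Finset.prod_const, Finset.card_univ, Fintype.card_prod, Fintype.card_fin,
          Fintype.card_fin]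
      refine le_trans ?_ (Finset.sum_le_sum h3)
      rw [Finset.sum_const, Finset.card_univ, nsmul_eq_mul, Nat.card_eq_fintype_card]
    have h3 : ((Nat.card T * 2 ^ t : ℕ) : ℝ≥0∞) ≤ (((2 * H + 1) ^ (m * n) : ℕ) : ℝ≥0∞) := by
      have h4 : ((2 * H + 1 : ℕ) : ℝ≥0∞) ≠ 0 := Nat.cast_ne_zero.2 (by omega)
      have h5 : ((2 * H + 1 : ℕ) : ℝ≥0∞) ≠ ⊤ := ENNReal.natCast_ne_top _
      have h6 : (((2 * H + 1 : ℕ) : ℝ≥0∞)⁻¹) ^ (m * n) * ((2 * H + 1 : ℕ) : ℝ≥0∞) ^ (m * n) = 1 := by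
        rw [← mul_pow, ENNReal.inv_mul_cancel h4 h5, one_pow]
      have h7 : (1 / 2 : ℝ≥0∞) ^ t * 2 ^ t = 1 := by
        rw [← mul_pow, one_div, ENNReal.inv_mul_cancel (by norm_num) (by norm_num), one_pow]
      calc ((Nat.card T * 2 ^ t : ℕ) : ℝ≥0∞)
          = (Nat.card T : ℝ≥0∞) * (((2 * H + 1 : ℕ) : ℝ≥0∞)⁻¹) ^ (m * n) *
              (((2 * H + 1 : ℕ) : ℝ≥0∞) ^ (m * n) * 2 ^ t) := by
            push_cast
            push_cast at h6
            rw [mul_assoc, ← mul_assoc (((2 * (H : ℝ≥0∞) + 1))⁻¹ ^ (m * n)), h6, one_mul]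
        _ ≤ (1 / 2) ^ t * (((2 * H + 1 : ℕ) : ℝ≥0∞) ^ (m * n) * 2 ^ t) := by gcongr
        _ = ((1 / 2) ^ t * 2 ^ t) * ((2 * H + 1 : ℕ) : ℝ≥0∞) ^ (m * n) := by ring
        _ = (((2 * H + 1) ^ (m * n) : ℕ) : ℝ≥0∞) := by
            rw [h7, one_mul]
            push_cast
            rfl
    exact_mod_cast h3
  · -- small entries
    have hHE : (H : ℤ) ≤ 2 ^ E := by
      have h1 : (H : ℝ) < 2 ^ E := by
        rw [one_div, inv_pow, ← div_eq_mul_inv, div_lt_one (by positivity)] at hH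
        exact hH
      exact_mod_cast h1.le
    have hemp : IsEmpty {A : Fin m → Fin n → Finset.Icc (-(H : ℤ)) H //
      ∃ b, ¬ Decides W.algW (p₁.eval x + p₀.eval (x + Q.eval x))
        (Matrix.of fun i j => ((A i j : ℤ) : ℝ)) b} := by
      constructor
      rintro ⟨A, b, hA⟩
      apply hA
      have h1 := hq m n 1 _ _ (small_span (E := E) (Matrix.of fun i j => (A i j : ℤ)) (by
        intro i j
        have h2 := Finset.mem_Icc.1 (A i j).2
        rw [Matrix.of_apply, abs_le]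
        exact ⟨by linarith [h2.1], by linarith [h2.2]⟩))
      have h2 := hp₀ m n hm hn (Matrix.of fun i j => ((A i j : ℤ) : ℝ)) b _
        ⟨V.lker _, Or.inl ⟨le_rfl, by omega⟩, few_of h1⟩
      refine h2.mono ?_
      have h3 : q.eval (m + n + 1 + (m * m + E * m)) ≤ Q.eval x := by
        simp only [hQ, Polynomial.eval_comp, Polynomial.eval_add, Polynomial.eval_mul,
          Polynomial.eval_X, Polynomial.eval_one]
        refine pe_mono q ?_
        have h4 : m * m ≤ x * x := Nat.mul_le_mul (by omega) (by omega)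
        have h5 : E * m ≤ pE.eval x * x := Nat.mul_le_mul hEx (by omega)
        omega
      have h4 := pe_mono p₀ (show m + n + q.eval (m + n + 1 + (m * m + E * m)) ≤
        x + Q.eval x by omega)
      omega
    rw [Nat.card_eq_zero.2 (Or.inl hemp), zero_mul]
    exact Nat.zero_le _

end Pool.Agent.Q203.LPR
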