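import Pool.Agent.Q203.LPR.Det
import Pool.Agent.Y648.CW.T_SPAN

/-!
# Few scales of circuit ratios with high probability
-/

set_option autoImplicit false

namespace Pool.Agent.Q203.LPR

open Finset MvPolynomial MeasureTheory
open scoped ENNReal
open Pool.Agent.Y648.CS.W Pool.Agent.Y648.CS.W.TSPAN Pool.Agent.Y648.CS

/-- If the minors lie in few windows, there are few scales. -/
theorem scales_of_windows {m n r L : ℕ} {A B : Matrix (Fin m) (Fin n) ℝ}
    {G : Matrix (Fin n) (Fin n) ℝ} {ρ : Fin m → ℝ} (hρ : ∀ i, ρ i ≠ 0) (hG : G.det ≠ 0)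
    (hAB : ∀ i j, ρ i * A i j = (B * G) i j) (S : Finset ℝ) (hS2 : ∀ σ ∈ S, 0 < σ)
    (hr1 : 1 ≤ r) (hrN : S.card * S.card ≤ r) (hrL : 4 * L ≤ r)
    (hS3 : ∀ (f : Fin B.rank → Fin m) (h : Fin B.rank → Fin n), (B.submatrix f h).det ≠ 0 →
      ∃ σ ∈ S, σ ≤ |(B.submatrix f h).det| * 2 ^ L ∧ |(B.submatrix f h).det| ≤ 2 ^ L * σ) :
    Scales r A := by
  classical
  intro i j
  by_cases hij : i = j
  · subst hij
    refine ⟨{1}, by rw [Finset.card_singleton]; exact hr1, by simp, ?_⟩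
    intro C hC hi _
    refine ⟨1, Finset.mem_singleton_self _, ?_, ?_⟩
    · rw [div_self hi, abs_one]
    · rw [div_self hi, abs_one, mul_one]
      exact one_le_pow₀ (by norm_num)
  set κ : ℝ := |ρ i / ρ j| with hκ
  have hκ0 : 0 < κ := abs_pos.2 (div_ne_zero (hρ i) (hρ j))
  refine ⟨(S ×ˢ S).image fun p => κ * (p.1 / p.2 / 2 ^ (2 * L)), ?_, ?_, ?_⟩
  · refine Finset.card_image_le.trans ?_
    rw [Finset.card_product]
    exact hrN
  · intro x hx
    obtain ⟨p, hp, rfl⟩ := Finset.mem_image.1 hx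
    rw [Finset.mem_product] at hp
    have h1 := hS2 _ hp.1
    have h2 := hS2 _ hp.2
    positivity
  · intro C hC hi hj
    have hC' := circ_scale hρ hG hAB hC
    obtain ⟨f, f', h, hd1, hd2⟩ := circ_minor hC' hij (div_ne_zero hi (hρ i))
      (div_ne_zero hj (hρ j))
    set d := (B.submatrix f h).det with hd
    set d' := (B.submatrix f' h).det with hd'
    have hratio0 : C i / ρ i / (C j / ρ j) ≠ 0 :=
      div_ne_zero (div_ne_zero hi (hρ i)) (div_ne_zero hj (hρ j))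
    have hd0 : d' ≠ 0 := by
      rw [hd2]
      exact mul_ne_zero (neg_ne_zero.2 hratio0) hd1
    have hab : |d'| = |C i / ρ i / (C j / ρ j)| * |d| := by
      rw [hd2, abs_mul, abs_neg]
    have hratio : |C i / C j| = κ * (|d'| / |d|) := by
      rw [hab, mul_div_assoc, div_self (abs_ne_zero.2 hd1), mul_one, hκ, ← abs_mul]
      congr 1
      have := hρ i
      have := hρ j
      field_simp
    obtain ⟨σ, hσ, hσ1, hσ2⟩ := hS3 f h hd1
    obtain ⟨σ', hσ', hσ1', hσ2'⟩ := hS3 f' h hd0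
    have hσp := hS2 σ hσ
    have hσp' := hS2 σ' hσ'
    have hdp : 0 < |d| := abs_pos.2 hd1
    have hdp' : 0 < |d'| := abs_pos.2 hd0
    have h2L : (2 : ℝ) ^ (2 * L) = 2 ^ L * 2 ^ L := by rw [two_mul, pow_add]
    have hLp : (0 : ℝ) < 2 ^ L := by positivity
    refine ⟨κ * (σ' / σ / 2 ^ (2 * L)), ?_, ?_, ?_⟩
    · exact Finset.mem_image.2 ⟨(σ', σ), Finset.mem_product.2 ⟨hσ', hσ⟩, rfl⟩
    · rw [hratio]
      refine mul_le_mul_of_nonneg_left ?_ hκ0.le
      rw [div_div, div_le_div_iff₀ (by positivity) hdp, h2L]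
      calc σ' * |d| ≤ (|d'| * 2 ^ L) * (2 ^ L * σ) :=
            mul_le_mul hσ1' hσ2 hdp.le (by positivity)
        _ = |d'| * (σ * (2 ^ L * 2 ^ L)) := by ring
    · rw [hratio]
      have h4 : (2 : ℝ) ^ (4 * L) ≤ 2 ^ r := pow_le_pow_right₀ (by norm_num) hrL
      have h5 : 2 ^ (4 * L) * (κ * (σ' / σ / 2 ^ (2 * L))) = κ * (2 ^ (2 * L) * (σ' / σ)) := by
        have h6 : (2 : ℝ) ^ (4 * L) = 2 ^ (2 * L) * 2 ^ (2 * L) := by
          rw [← pow_add]
          congr 1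
          ring
        rw [h6]
        field_simp
      have h7 : |d'| / |d| ≤ 2 ^ (2 * L) * (σ' / σ) := by
        rw [mul_div_assoc', div_le_div_iff₀ hdp hσp, h2L]
        calc |d'| * σ ≤ (2 ^ L * σ') * (|d| * 2 ^ L) :=
              mul_le_mul hσ2' hσ1 hσp.le (by positivity)
          _ = 2 ^ L * 2 ^ L * σ' * |d| := by ring
      calc κ * (|d'| / |d|) ≤ κ * (2 ^ (2 * L) * (σ' / σ)) := mul_le_mul_of_nonneg_left h7 hκ0.le
        _ = 2 ^ (4 * L) * (κ * (σ' / σ / 2 ^ (2 * L))) := h5.symm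
        _ ≤ 2 ^ r * (κ * (σ' / σ / 2 ^ (2 * L))) :=
            mul_le_mul_of_nonneg_right h4 (by positivity)

/-- The exponent in the probability of a single failure. -/
def eE (m n s t : ℕ) : ℕ := s + (t + ((m + n) + (m + (m + n) * m)))

/-- The width of the windows. -/
def lL (K m n d s t : ℕ) : ℕ :=
  (eE m n s t + s + 1) * (m * n) + wd ((m * d + 1) ^ K) (se K m d s)

theorem upper {Q : Type} [Fintype Q] [DecidableEq Q] (c : Finset Q → ℝ) (ξ : Q → ℝ) (s : ℕ)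
    (hξ : ∀ q, |ξ q| ≤ 2 ^ s) (M : ℝ) (hM : ∀ T, |c T| ≤ M) :
    |ev c Finset.univ ξ| ≤ 2 ^ ((s + 1) * Fintype.card Q) * M := by
  unfold ev
  refine (Finset.abs_sum_le_sum_abs _ _).trans ?_
  have hM0 : 0 ≤ M := (abs_nonneg _).trans (hM ∅)
  have h1 : ∀ T ∈ (Finset.univ : Finset Q).powerset, |c T * ∏ q ∈ T, ξ q| ≤
      M * 2 ^ (s * Fintype.card Q) := by
    intro T _
    rw [abs_mul, Finset.abs_prod]
    refine mul_le_mul (hM T) ?_ (by positivity) hM0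
    calc ∏ q ∈ T, |ξ q| ≤ ∏ _q ∈ T, (2 : ℝ) ^ s :=
          Finset.prod_le_prod (fun _ _ => abs_nonneg _) fun q _ => hξ q
      _ = 2 ^ (s * T.card) := by rw [Finset.prod_const, ← pow_mul]
      _ ≤ 2 ^ (s * Fintype.card Q) :=
          pow_le_pow_right₀ (by norm_num) (Nat.mul_le_mul_left _ (Finset.card_le_univ T))
  refine (Finset.sum_le_sum h1).trans ?_
  rw [Finset.sum_const, Finset.card_powerset, Finset.card_univ, nsmul_eq_mul]
  push_cast
  rw [add_mul, one_mul, pow_add]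
  apply le_of_eq
  ring

/-- Outside the bad events there are few scales. -/
theorem good {K m n d s t r : ℕ} {P R : Matrix (Fin m) (Fin n) (MvPolynomial (Fin K) ℤ)}
    (hP : ∀ i j, Small d s (P i j)) (hR : ∀ i j, Small d s (R i j)) (θ : Fin K → ℝ)
    (hr1 : 1 ≤ r) (hrN : (m * d + 1) ^ K * (m * d + 1) ^ K ≤ r)
    (hrL : 4 * lL K m n d s t ≤ r) (ξ : Fin m × Fin n → ℝ) (hξ : ∀ q, |ξ q| ≤ 2 ^ s)
    (T₀ : ∀ k : Fin (m + 1), (Fin k → Fin m) → (Fin k → Fin n) → Finset (Fin m × Fin n))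
    (hT₀ : ∀ k f g T, |aeval θ (cp P R f g T)| ≤ |aeval θ (cp P R f g (T₀ k f g))|)
    (hgood : ∀ (k : Fin (m + 1)) (f : Fin k → Fin m) (g : Fin k → Fin n),
      ((1 / 2) ^ eE m n s t / 2 ^ (s + 1)) ^ (Finset.univ : Finset (Fin m × Fin n)).card *
        |aeval θ (cp P R f g (T₀ k f g))| ≤
          |ev (fun T' => aeval θ (cp P R f g T')) Finset.univ ξ|)
    (A : Matrix (Fin m) (Fin n) ℝ) (ρ : Fin m → ℝ) (G : Matrix (Fin n) (Fin n) ℝ)
    (hρ : ∀ i, ρ i ≠ 0) (hG : G.det ≠ 0) (hAB : ∀ i j, ρ i * A i j = (mat P R θ ξ * G) i j) :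
    Scales r A := by
  classical
  obtain ⟨S, hS1, hS2, hS3⟩ := windows ((m * d + 1) ^ K) (se K m d s) (mon θ (m * d))
  refine scales_of_windows (B := mat P R θ ξ) (G := G) (ρ := ρ) (L := lL K m n d s t)
    hρ hG hAB S hS2 hr1 ((Nat.mul_le_mul hS1 hS1).trans hrN) hrL ?_
  intro f g hdet
  have hinj : Function.Injective f := by
    intro a b hab
    by_contra hne
    exact hdet (Matrix.det_zero_of_row_eq hne (by
      funext x
      simp only [Matrix.submatrix_apply, hab]))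
  have hk : (mat P R θ ξ).rank ≤ m := by
    refine (Matrix.rank_le_card_height _).trans ?_
    rw [Fintype.card_fin]
  set k : Fin (m + 1) := ⟨(mat P R θ ξ).rank, Nat.lt_succ_of_le hk⟩ with hkdef
  have h1 := det_eq P R θ ξ f g hinj
  set D := ((mat P R θ ξ).submatrix f g).det with hD
  have h2 := hgood k f g
  rw [← h1] at h2
  set c0 : ℝ := |aeval θ (cp P R f g (T₀ k f g))| with hc0
  have h3 : |D| ≤ 2 ^ ((s + 1) * (m * n)) * c0 := by
    have := upper (fun T' => aeval θ (cp P R f g T')) ξ s hξ c0 (fun T => hT₀ k f g T)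
    rw [← h1] at this
    simpa using this
  have hc0p : 0 < c0 := by
    rcases (abs_nonneg (aeval θ (cp P R f g (T₀ k f g)))).eq_or_lt with h | h
    · rw [← hc0] at h
      rw [← h, mul_zero] at h3
      exact absurd (abs_nonpos_iff.1 h3) hdet
    · exact h
  have hcard : (Finset.univ : Finset (Fin m × Fin n)).card = m * n := by simp
  rw [hcard] at h2
  have h4 : ((1 / 2 : ℝ) ^ eE m n s t / 2 ^ (s + 1)) ^ (m * n) =
      (2 ^ ((eE m n s t + s + 1) * (m * n)))⁻¹ := by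
    rw [one_div, inv_pow, div_eq_mul_inv, ← mul_inv, ← pow_add, inv_pow, ← pow_mul]
    rfl
  rw [h4] at h2
  set a := (eE m n s t + s + 1) * (m * n) with ha
  have hap : (0 : ℝ) < 2 ^ a := by positivity
  have h5 : c0 ≤ |D| * 2 ^ a := by
    rw [inv_mul_le_iff₀ hap] at h2
    linarith
  have h6 : |D| ≤ 2 ^ a * c0 := by
    refine h3.trans (mul_le_mul_of_nonneg_right ?_ hc0p.le)
    exact pow_le_pow_right₀ (by norm_num) (Nat.mul_le_mul_right _ (by omega))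
  obtain ⟨y, hy, hyv⟩ := cp_span P R (Nat.le_of_lt_succ k.2) hP hR θ f g (T₀ k f g)
  obtain ⟨σ, hσ, hσ1, hσ2⟩ := hS3 c0 ⟨hc0p, y, hy, by rw [← hyv]⟩
  refine ⟨σ, hσ, ?_, ?_⟩
  · have h7 : (2 : ℝ) ^ lL K m n d s t = 2 ^ a * 2 ^ wd ((m * d + 1) ^ K) (se K m d s) := by
      rw [← pow_add]
      rfl
    rw [h7]
    calc σ ≤ c0 * 2 ^ wd ((m * d + 1) ^ K) (se K m d s) := hσ1
      _ ≤ |D| * 2 ^ a * 2 ^ wd ((m * d + 1) ^ K) (se K m d s) :=
          mul_le_mul_of_nonneg_right h5 (by positivity)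
      _ = _ := by ring
  · have h7 : (2 : ℝ) ^ lL K m n d s t = 2 ^ a * 2 ^ wd ((m * d + 1) ^ K) (se K m d s) := by
      rw [← pow_add]
      rfl
    rw [h7]
    calc |D| ≤ 2 ^ a * c0 := h6
      _ ≤ 2 ^ a * (2 ^ wd ((m * d + 1) ^ K) (se K m d s) * σ) :=
          mul_le_mul_of_nonneg_left hσ2 hap.le
      _ = _ := by ring

theorem card_choices (m n : ℕ) :
    Fintype.card (Σ k : Fin (m + 1), (Fin k → Fin m) × (Fin k → Fin n)) ≤
      2 ^ (m + (m + n) * m) := by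
  rw [Fintype.card_sigma]
  have h1 : ∀ k ∈ (Finset.univ : Finset (Fin (m + 1))),
      Fintype.card ((Fin k → Fin m) × (Fin k → Fin n)) ≤ 2 ^ ((m + n) * m) := by
    intro k _
    rw [Fintype.card_prod, Fintype.card_fun, Fintype.card_fun, Fintype.card_fin, Fintype.card_fin,
      Fintype.card_fin]
    have hk : (k : ℕ) ≤ m := Nat.le_of_lt_succ k.2
    have h2 : m ^ (k : ℕ) ≤ (2 ^ m) ^ m := by
      refine (Nat.pow_le_pow_left Nat.lt_two_pow_self.le _).trans ?_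
      exact Nat.pow_le_pow_right (by positivity) hk
    have h3 : n ^ (k : ℕ) ≤ (2 ^ n) ^ m := by
      refine (Nat.pow_le_pow_left Nat.lt_two_pow_self.le _).trans ?_
      exact Nat.pow_le_pow_right (by positivity) hk
    calc m ^ (k : ℕ) * n ^ (k : ℕ) ≤ (2 ^ m) ^ m * (2 ^ n) ^ m := Nat.mul_le_mul h2 h3
      _ = 2 ^ ((m + n) * m) := by
          rw [← pow_mul, ← pow_mul, ← pow_add]
          congr 1
          ring
  refine (Finset.sum_le_sum h1).trans ?_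
  rw [Finset.sum_const, Finset.card_univ, Fintype.card_fin, smul_eq_mul, pow_add]
  exact Nat.mul_le_mul_right _ Nat.lt_two_pow_self

/-- With high probability there are few scales. -/
theorem prob {K m n d s t r : ℕ} {P R : Matrix (Fin m) (Fin n) (MvPolynomial (Fin K) ℤ)}
    (hP : ∀ i j, Small d s (P i j)) (hR : ∀ i j, Small d s (R i j)) (θ : Fin K → ℝ)
    (hr1 : 1 ≤ r) (hrN : (m * d + 1) ^ K * (m * d + 1) ^ K ≤ r)
    (hrL : 4 * lL K m n d s t ≤ r) (ν : Fin m × Fin n → Measure ℝ)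
    [∀ q, IsProbabilityMeasure (ν q)]
    (hν : ∀ q, SpreadAt s ((1 / 2) ^ eE m n s t) (ν q)) :
    Measure.pi ν {ξ | ¬ ∀ (A : Matrix (Fin m) (Fin n) ℝ) (ρ : Fin m → ℝ)
      (G : Matrix (Fin n) (Fin n) ℝ), (∀ i, ρ i ≠ 0) → G.det ≠ 0 →
      (∀ i j, ρ i * A i j = (mat P R θ ξ * G) i j) → Scales r A} ≤ (1 / 2) ^ t := by
  classical
  -- the largest coefficients
  have hmax : ∀ (k : Fin (m + 1)) (f : Fin k → Fin m) (g : Fin k → Fin n),
      ∃ T₀ : Finset (Fin m × Fin n), ∀ T, |aeval θ (cp P R f g T)| ≤ |aeval θ (cp P R f g T₀)| := by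
    intro k f g
    obtain ⟨T₀, -, h⟩ := Finset.exists_max_image Finset.univ
      (fun T => |aeval θ (cp P R f g T)|) ⟨∅, Finset.mem_univ _⟩
    exact ⟨T₀, fun T => h T (Finset.mem_univ T)⟩
  choose T₀ hT₀ using hmax
  set ε : ℝ := (1 / 2) ^ eE m n s t with hε
  set bad : (Σ k : Fin (m + 1), (Fin k → Fin m) × (Fin k → Fin n)) → Set (Fin m × Fin n → ℝ) :=
    fun x => {ξ | (∀ q, |ξ q| ≤ 2 ^ s) ∧
      |ev (fun T' => aeval θ (cp P R x.2.1 x.2.2 T')) Finset.univ ξ| <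
        (ε / 2 ^ (s + 1)) ^ (Finset.univ : Finset (Fin m × Fin n)).card *
          |aeval θ (cp P R x.2.1 x.2.2 (T₀ x.1 x.2.1 x.2.2))|} with hbad
  have hsub : {ξ | ¬ ∀ (A : Matrix (Fin m) (Fin n) ℝ) (ρ : Fin m → ℝ)
      (G : Matrix (Fin n) (Fin n) ℝ), (∀ i, ρ i ≠ 0) → G.det ≠ 0 →
      (∀ i j, ρ i * A i j = (mat P R θ ξ * G) i j) → Scales r A} ⊆
      (⋃ q : Fin m × Fin n, Function.eval q ⁻¹' {x : ℝ | 2 ^ s < |x|}) ∪ ⋃ x, bad x := by
    intro ξ hξ
    by_contra hcon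
    simp only [Set.mem_union, Set.mem_iUnion, not_or, not_exists] at hcon
    have hξ1 : ∀ q, |ξ q| ≤ 2 ^ s := fun q => not_lt.1 (hcon.1 q)
    refine hξ fun A ρ G hρ hG hAB => good hP hR θ hr1 hrN hrL ξ hξ1 T₀ hT₀ ?_ A ρ G hρ hG hAB
    intro k f g
    by_contra hlt
    exact hcon.2 ⟨k, f, g⟩ ⟨hξ1, not_le.1 hlt⟩
  refine (measure_mono hsub).trans ((measure_union_le _ _).trans ?_)
  have h1 : Measure.pi ν (⋃ q : Fin m × Fin n, Function.eval q ⁻¹' {x : ℝ | 2 ^ s < |x|}) = 0 := by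
    rw [measure_iUnion_null_iff]
    intro q
    exact Measure.pi_eval_preimage_null ν (hν q).1
  rw [h1, zero_add]
  refine (measure_iUnion_fintype_le _ _).trans ?_
  have hε0 : 0 < ε := by positivity
  have hε1 : ε ≤ 1 := pow_le_one₀ (by norm_num) (by norm_num)
  have h2 : ∀ x ∈ (Finset.univ : Finset (Σ k : Fin (m + 1), (Fin k → Fin m) × (Fin k → Fin n))),
      Measure.pi ν (bad x) ≤ ((m * n : ℕ) : ℝ≥0∞) * ENNReal.ofReal (2 ^ s * ε) := by
    intro x _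
    have := ac ν hν hε0 hε1 (Finset.univ : Finset (Fin m × Fin n))
      (fun T' => aeval θ (cp P R x.2.1 x.2.2 T')) (T₀ x.1 x.2.1 x.2.2) (Finset.subset_univ _)
    have hcard : (Finset.univ : Finset (Fin m × Fin n)).card = m * n := by simp
    rw [hcard] at this
    rw [hbad]
    simp only [hcard]
    exact this
  refine (Finset.sum_le_sum h2).trans ?_
  rw [Finset.sum_const, Finset.card_univ, nsmul_eq_mul]
  have h3 : ENNReal.ofReal (2 ^ s * ε) =
      (2⁻¹ : ℝ≥0∞) ^ (t + ((m + n) + (m + (m + n) * m))) := by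
    have h4 : (2 : ℝ) ^ s * ε = (2⁻¹ : ℝ) ^ (t + ((m + n) + (m + (m + n) * m))) := by
      rw [hε]
      unfold eE
      rw [pow_add _ s, ← mul_assoc, ← mul_pow]
      norm_num
    rw [h4, ENNReal.ofReal_pow (by norm_num), ENNReal.ofReal_inv_of_pos (by norm_num)]
    norm_num
  rw [h3]
  have h5 : ((m * n : ℕ) : ℝ≥0∞) ≤ 2 ^ (m + n) := by
    have h6 : m * n ≤ 2 ^ (m + n) := by
      rw [pow_add]
      exact Nat.mul_le_mul Nat.lt_two_pow_self.le Nat.lt_two_pow_self.le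
    exact_mod_cast h6
  have h7 : ((Fintype.card (Σ k : Fin (m + 1), (Fin k → Fin m) × (Fin k → Fin n)) : ℕ) : ℝ≥0∞) ≤
      2 ^ (m + (m + n) * m) := by
    exact_mod_cast card_choices m n
  have h8 : ∀ a : ℕ, (2 : ℝ≥0∞) ^ a * 2⁻¹ ^ a = 1 := by
    intro a
    rw [← mul_pow, ENNReal.mul_inv_cancel (by norm_num) (by norm_num), one_pow]
  calc _ ≤ (2 : ℝ≥0∞) ^ (m + (m + n) * m) *
        (2 ^ (m + n) * 2⁻¹ ^ (t + ((m + n) + (m + (m + n) * m)))) := by gcongr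
    _ = 2⁻¹ ^ t * (2 ^ (m + n) * 2⁻¹ ^ (m + n)) *
        (2 ^ (m + (m + n) * m) * 2⁻¹ ^ (m + (m + n) * m)) := by
          rw [pow_add _ t, pow_add _ (m + n)]
          ring
    _ = (1 / 2) ^ t := by rw [h8, h8, mul_one, mul_one, one_div]

end Pool.Agent.Q203.LPR
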